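import Mathlib

/-!
# Project BR4, modules COP and SGM: elementary part (helper10 for helper28)
-/

set_option autoImplicit false

namespace Pool.Agent.H10.BR4

open Finset ArithmeticFunction
open scoped ArithmeticFunction.Moebius ArithmeticFunction.zeta

theorem sum_mu {n : ℕ} : (∑ d ∈ n.divisors, ((μ d : ℤ) : ℝ)) = if n = 1 then 1 else 0 := by
  have h : (∑ d ∈ n.divisors, (μ d : ℤ)) = if n = 1 then 1 else 0 := by
    have h1 : (μ * ζ : ArithmeticFunction ℤ) n = (1 : ArithmeticFunction ℤ) n := by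
      rw [moebius_mul_coe_zeta]
    rw [coe_mul_zeta_apply] at h1
    rw [h1, one_apply]
  rw [← Int.cast_sum, h]
  split <;> simp

theorem tot {q : ℕ} (hq : 1 ≤ q) :
    (q.totient : ℝ) / q = ∑ δ ∈ q.divisors, ((μ δ : ℤ) : ℝ) / δ := by
  have h := (sum_eq_iff_sum_mul_moebius_eq (R := ℝ) (f := fun n => (n.totient : ℝ))
    (g := fun n => (n : ℝ))).1 (fun n _ => by exact_mod_cast Nat.sum_totient n) q (by omega)
  have hq0 : (q : ℝ) ≠ 0 := by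
    have : q ≠ 0 := by omega
    exact_mod_cast this
  rw [← h, Nat.sum_divisorsAntidiagonal (fun a b => ((μ a : ℤ) : ℝ) * (b : ℝ)), sum_div]
  refine sum_congr rfl fun δ hδ => ?_
  have hd := Nat.dvd_of_mem_divisors hδ
  have hδ0 : (δ : ℝ) ≠ 0 := by
    have : δ ≠ 0 := fun e => by
      rw [e] at hd
      have := Nat.eq_zero_of_zero_dvd hd
      omega
    exact_mod_cast this
  rw [Nat.cast_div hd hδ0]
  field_simp

theorem mult_sum (δ Y : ℕ) (hδ : 1 ≤ δ) :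
    (∑ x ∈ (Icc 1 Y).filter (fun x => δ ∣ x), 1 / (x : ℝ)) =
      1 / (δ : ℝ) * ∑ m ∈ Icc 1 (Y / δ), 1 / (m : ℝ) := by
  rw [mul_sum]
  refine sum_nbij' (fun x => x / δ) (fun m => δ * m) ?_ ?_ ?_ ?_ ?_
  · intro x hx
    rw [mem_filter, mem_Icc] at hx
    rw [mem_Icc]
    obtain ⟨m, rfl⟩ := hx.2
    rw [Nat.mul_div_cancel_left _ hδ]
    constructor
    · by_contra h
      have : m = 0 := by omega
      rw [this] at hx
      omega
    · rw [Nat.le_div_iff_mul_le hδ, mul_comm]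
      exact hx.1.2
  · intro m hm
    rw [mem_Icc] at hm
    rw [mem_filter, mem_Icc]
    refine ⟨⟨Nat.mul_pos hδ hm.1, ?_⟩, dvd_mul_right _ _⟩
    have := (Nat.le_div_iff_mul_le hδ).1 hm.2
    rwa [mul_comm] at this
  · intro x hx
    rw [mem_filter] at hx
    exact Nat.mul_div_cancel' hx.2
  · intro m _
    exact Nat.mul_div_cancel_left _ hδ
  · intro x hx
    rw [mem_filter] at hx
    obtain ⟨m, rfl⟩ := hx.2
    rw [Nat.mul_div_cancel_left _ hδ]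
    push_cast
    rw [one_div_mul_one_div]

theorem cop_id (q Y : ℕ) (hq : 1 ≤ q) :
    (∑ x ∈ (Icc 1 Y).filter (fun x => x.Coprime q), 1 / (x : ℝ)) =
      ∑ δ ∈ q.divisors, ((μ δ : ℤ) : ℝ) / δ * ∑ m ∈ Icc 1 (Y / δ), 1 / (m : ℝ) := by
  rw [sum_filter]
  have h1 : ∀ x ∈ Icc 1 Y, (if x.Coprime q then 1 / (x : ℝ) else 0) =
      ∑ δ ∈ q.divisors, if δ ∣ x then ((μ δ : ℤ) : ℝ) * (1 / (x : ℝ)) else 0 := by
    intro x hx
    rw [mem_Icc] at hx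
    rw [← sum_filter, ← sum_mul]
    have h2 : q.divisors.filter (fun δ => δ ∣ x) = (x.gcd q).divisors := by
      ext δ
      rw [mem_filter, Nat.mem_divisors, Nat.mem_divisors, Nat.dvd_gcd_iff]
      have hg : x.gcd q ≠ 0 := Nat.gcd_ne_zero_left (by omega)
      constructor
      · rintro ⟨⟨h3, _⟩, h4⟩
        exact ⟨⟨h4, h3⟩, hg⟩
      · rintro ⟨⟨h3, h4⟩, _⟩
        exact ⟨⟨h4, by omega⟩, h3⟩
    rw [h2, sum_mu]
    unfold Nat.Coprime
    split <;> simp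
  rw [sum_congr rfl h1, sum_comm]
  refine sum_congr rfl fun δ hδ => ?_
  have hδ1 : 1 ≤ δ := Nat.pos_of_mem_divisors hδ
  rw [← sum_filter, ← mul_sum, mult_sum δ Y hδ1]
  ring

theorem harm {δ Y : ℕ} (hδ : 1 ≤ δ) (hY : 1 ≤ Y) :
    |(∑ m ∈ Icc 1 (Y / δ), 1 / (m : ℝ)) - Real.log Y| ≤ 1 + Real.log δ := by
  have hδ0 : (0 : ℝ) < δ := by exact_mod_cast hδ
  have hY0 : (0 : ℝ) < Y := by exact_mod_cast hY
  have hlδ : 0 ≤ Real.log δ := Real.log_natCast_nonneg _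
  have hlY : 0 ≤ Real.log Y := Real.log_natCast_nonneg _
  rcases lt_or_ge Y δ with h | h
  · rw [Nat.div_eq_of_lt h]
    simp only [show Icc 1 0 = (∅ : Finset ℕ) from rfl, sum_empty, zero_sub, abs_neg]
    rw [abs_of_nonneg hlY]
    have : Real.log Y ≤ Real.log δ := Real.log_le_log hY0 (by exact_mod_cast h.le)
    linarith
  · have h1 : (∑ m ∈ Icc 1 (Y / δ), 1 / (m : ℝ)) = ((harmonic (Y / δ) : ℚ) : ℝ) := by
      rw [harmonic_eq_sum_Icc, Rat.cast_sum]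
      refine sum_congr rfl fun m _ => ?_
      push_cast
      rw [one_div]
    have hfl : ⌊(Y : ℝ) / δ⌋₊ = Y / δ := Nat.floor_div_eq_div Y δ
    have hge : (1 : ℝ) ≤ (Y : ℝ) / δ := by
      rw [le_div_iff₀ hδ0, one_mul]
      exact_mod_cast h
    have h2 := log_le_harmonic_floor ((Y : ℝ) / δ) (by positivity)
    have h3 := harmonic_floor_le_one_add_log ((Y : ℝ) / δ) hge
    rw [hfl, ← h1] at h2 h3
    rw [Real.log_div hY0.ne' hδ0.ne'] at h2 h3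
    rw [abs_le]
    constructor <;> linarith

theorem log_rpow {δ : ℕ} (hδ : 1 ≤ δ) :
    (1 + Real.log δ) / δ ≤ 4 * (δ : ℝ) ^ (-(3 / 4) : ℝ) := by
  have hδ0 : (0 : ℝ) < δ := by exact_mod_cast hδ
  have h1 := Real.log_le_sub_one_of_pos (show (0 : ℝ) < (δ : ℝ) ^ (1 / 4 : ℝ) by positivity)
  rw [Real.log_rpow hδ0] at h1
  rw [div_le_iff₀ hδ0]
  have h2 : (δ : ℝ) ^ (-(3 / 4) : ℝ) * δ = (δ : ℝ) ^ (1 / 4 : ℝ) := by
    nth_rewrite 2 [← Real.rpow_one (δ : ℝ)]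
    rw [← Real.rpow_add hδ0]
    norm_num
  rw [mul_assoc, h2]
  linarith

/-- COP with the constant 4 -/
theorem cop {q Y : ℕ} (hq : 1 ≤ q) (hY : 1 ≤ Y) :
    |(∑ x ∈ (Icc 1 Y).filter (fun x => x.Coprime q), 1 / (x : ℝ)) - (q.totient : ℝ) / q * Real.log Y| ≤
      4 * ∑ δ ∈ q.divisors, (δ : ℝ) ^ (-(3 / 4) : ℝ) := by
  rw [cop_id q Y hq, tot hq, sum_mul, ← sum_sub_distrib, mul_sum]
  refine (abs_sum_le_sum_abs _ _).trans (sum_le_sum fun δ hδ => ?_)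
  have hδ1 : 1 ≤ δ := Nat.pos_of_mem_divisors hδ
  have hδ0 : (0 : ℝ) < δ := by exact_mod_cast hδ1
  rw [← mul_sub, abs_mul, abs_div, abs_of_pos hδ0]
  have h1 : |((μ δ : ℤ) : ℝ)| ≤ 1 := by
    rw [← Int.cast_abs]
    exact_mod_cast abs_moebius_le_one
  calc |((μ δ : ℤ) : ℝ)| / δ * |(∑ m ∈ Icc 1 (Y / δ), 1 / (m : ℝ)) - Real.log Y| ≤
        1 / δ * (1 + Real.log δ) := by
        refine mul_le_mul ?_ (harm hδ1 hY) (abs_nonneg _) (by positivity)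
        exact div_le_div_of_nonneg_right h1 hδ0.le
    _ = (1 + Real.log δ) / δ := by ring
    _ ≤ 4 * (δ : ℝ) ^ (-(3 / 4) : ℝ) := log_rpow hδ1

/-- SGM -/
theorem sgm : ∃ C : ℝ, 0 < C ∧ ∀ X : ℕ,
    ∑ d ∈ Icc 1 X, (∑ δ ∈ d.divisors, (δ : ℝ) ^ (-(3 / 4) : ℝ)) ^ 2 ≤ C * X := by
  have hs : Summable (fun n : ℕ => (n : ℝ) ^ (-(5 / 4) : ℝ)) := by
    rw [Real.summable_nat_rpow]
    norm_num
  have hnn : ∀ n : ℕ, 0 ≤ (n : ℝ) ^ (-(5 / 4) : ℝ) := fun n => by positivity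
  set Z : ℝ := ∑' n : ℕ, (n : ℝ) ^ (-(5 / 4) : ℝ) with hZ
  have hZF : ∀ F : Finset ℕ, ∑ n ∈ F, (n : ℝ) ^ (-(5 / 4) : ℝ) ≤ Z := fun F =>
    hs.sum_le_tsum F fun n _ => hnn n
  have hZ1 : 1 ≤ Z := by
    have := hZF {1}
    simpa using this
  refine ⟨Z * Z, by positivity, fun X => ?_⟩
  have h1 : ∀ d ∈ Icc 1 X, (∑ δ ∈ d.divisors, (δ : ℝ) ^ (-(3 / 4) : ℝ)) ^ 2 ≤
      Z * ∑ δ ∈ Icc 1 X, if δ ∣ d then (δ : ℝ) ^ (-(1 / 4) : ℝ) else 0 := by
    intro d hd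
    rw [mem_Icc] at hd
    have h2 : (∑ δ ∈ d.divisors, (δ : ℝ) ^ (-(3 / 4) : ℝ)) ^ 2 ≤
        (∑ δ ∈ d.divisors, ((δ : ℝ) ^ (-(5 / 8) : ℝ)) ^ 2) *
          ∑ δ ∈ d.divisors, ((δ : ℝ) ^ (-(1 / 8) : ℝ)) ^ 2 := by
      have h3 := sum_mul_sq_le_sq_mul_sq d.divisors (fun δ => (δ : ℝ) ^ (-(5 / 8) : ℝ))
        (fun δ => (δ : ℝ) ^ (-(1 / 8) : ℝ))
      refine le_trans (le_of_eq ?_) h3
      congr 1
      refine sum_congr rfl fun δ hδ => ?_
      have hδ0 : (0 : ℝ) < δ := by exact_mod_cast Nat.pos_of_mem_divisors hδ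
      rw [← Real.rpow_add hδ0]
      norm_num
    refine h2.trans ?_
    have h4 : ∀ (δ : ℕ) (e : ℝ), ((δ : ℝ) ^ e) ^ 2 = (δ : ℝ) ^ (e * 2) := by
      intro δ e
      rw [Real.rpow_mul (Nat.cast_nonneg _)]
      norm_num
    simp_rw [h4]
    have h5 : (∑ δ ∈ d.divisors, (δ : ℝ) ^ (-(5 / 8) * 2 : ℝ)) ≤ Z := by
      have := hZF d.divisors
      norm_num at this ⊢
      exact this
    have h6 : (∑ δ ∈ d.divisors, (δ : ℝ) ^ (-(1 / 8) * 2 : ℝ)) ≤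
        ∑ δ ∈ Icc 1 X, if δ ∣ d then (δ : ℝ) ^ (-(1 / 4) : ℝ) else 0 := by
      rw [← sum_filter]
      have h7 : d.divisors = (Icc 1 X).filter (fun δ => δ ∣ d) := by
        ext δ
        rw [mem_filter, mem_Icc, Nat.mem_divisors]
        constructor
        · rintro ⟨h8, h9⟩
          have h10 := Nat.le_of_dvd (by omega) h8
          have h11 := Nat.pos_of_dvd_of_pos h8 (by omega)
          exact ⟨⟨h11, by omega⟩, h8⟩
        · rintro ⟨_, h8⟩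
          exact ⟨h8, by omega⟩
      rw [h7]
      apply le_of_eq
      refine sum_congr rfl fun δ _ => ?_
      norm_num
    exact mul_le_mul h5 h6 (sum_nonneg fun δ _ => by positivity) (by linarith)
  refine (sum_le_sum h1).trans ?_
  rw [← mul_sum, sum_comm, mul_assoc]
  refine mul_le_mul_of_nonneg_left ?_ (by linarith)
  have h2 : ∀ δ ∈ Icc 1 X, (∑ d ∈ Icc 1 X, if δ ∣ d then (δ : ℝ) ^ (-(1 / 4) : ℝ) else 0) ≤
      (δ : ℝ) ^ (-(5 / 4) : ℝ) * X := by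
    intro δ hδ
    rw [mem_Icc] at hδ
    have hδ0 : (0 : ℝ) < δ := by exact_mod_cast hδ.1
    rw [← sum_filter, sum_const, nsmul_eq_mul]
    have h3 : (((Icc 1 X).filter (fun d => δ ∣ d)).card : ℝ) ≤ (X : ℝ) / δ := by
      have h4 : ((Icc 1 X).filter (fun d => δ ∣ d)).card ≤ (Icc 1 (X / δ)).card := by
        refine card_le_card_of_injOn (fun d => d / δ) ?_ ?_
        · intro d hd
          rw [mem_coe, mem_filter, mem_Icc] at hd
          rw [mem_coe, mem_Icc]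
          have h5 := Nat.le_of_dvd (by omega) hd.2
          exact ⟨Nat.div_pos h5 hδ.1, Nat.div_le_div_right hd.1.2⟩
        · intro d hd d' hd' hdd
          rw [mem_coe, mem_filter] at hd hd'
          have h5 : d / δ = d' / δ := hdd
          rw [← Nat.div_mul_cancel hd.2, ← Nat.div_mul_cancel hd'.2, h5]
      rw [Nat.card_Icc, Nat.add_sub_cancel] at h4
      have h6 : (((Icc 1 X).filter (fun d => δ ∣ d)).card : ℝ) ≤ ((X / δ : ℕ) : ℝ) := by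
        exact_mod_cast h4
      exact h6.trans Nat.cast_div_le
    calc (((Icc 1 X).filter (fun d => δ ∣ d)).card : ℝ) * (δ : ℝ) ^ (-(1 / 4) : ℝ) ≤
          (X : ℝ) / δ * (δ : ℝ) ^ (-(1 / 4) : ℝ) :=
          mul_le_mul_of_nonneg_right h3 (by positivity)
      _ = (δ : ℝ) ^ (-(1 / 4) : ℝ) * (δ : ℝ) ^ (-1 : ℝ) * X := by
          rw [Real.rpow_neg_one]
          ring
      _ = (δ : ℝ) ^ (-(5 / 4) : ℝ) * X := by
          rw [← Real.rpow_add hδ0]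
          norm_num
  refine (sum_le_sum h2).trans ?_
  rw [← sum_mul]
  exact mul_le_mul_of_nonneg_right (hZF _) (Nat.cast_nonneg _)

end Pool.Agent.H10.BR4
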