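import Pool.Agent.H28.BR.Stm5
import Pool.Agent.H10.BR.Cop0

/-!
# Project BR4, modules COP and SGM (helper10 for helper28)
-/

set_option autoImplicit false

namespace Pool.Agent.H10.BR4

open Pool.Agent.H28.BR4

/-- MODULE COP -/
theorem t_COP : S_COP := by
  refine ⟨4, by norm_num, fun q Y hq hY => ?_⟩
  exact cop hq hY

/-- MODULE SGM -/
theorem t_SGM : S_SGM := by
  obtain ⟨C, hC, h⟩ := sgm
  exact ⟨C, hC, fun X => h X⟩

end Pool.Agent.H10.BR4
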