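import Pool.Agent.H28.BR.Stm3
import Pool.Graph.R_seed8.Helper112.Arith

set_option autoImplicit false

/-!
# BR3 TAU: divisor sums (helper10 for helper28)
-/

namespace Pool.Agent.H10.BR

open Finset Pool.Agent.H28.BR Pool.Agent.H28.BR3

noncomputable section

theorem lg_one {X : ℕ} (h : 1 ≤ X) : 1 ≤ lg X := by
  unfold lg
  have : 0 ≤ Real.log X := Real.log_nonneg (by exact_mod_cast h)
  linarith

theorem lg_mono {X Y : ℕ} (h : 1 ≤ X) (hXY : X ≤ Y) : lg X ≤ lg Y := by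
  unfold lg
  have h0 : (0 : ℝ) < X := by exact_mod_cast h
  have : Real.log X ≤ Real.log Y := Real.log_le_log h0 (by exact_mod_cast hXY)
  linarith

theorem harm (S : ℕ) : ∑ n ∈ Icc 1 S, 1 / (n : ℝ) ≤ lg S := by
  have h := harmonic_le_one_add_log S
  unfold lg
  refine le_trans (le_of_eq ?_) h
  rw [harmonic_eq_sum_Icc]
  push_cast
  simp only [one_div]

theorem tau_nonneg (n : ℕ) : 0 ≤ tau n := by unfold tau; positivity

theorem tau_mul (m n : ℕ) : tau (m * n) ≤ tau m * tau n := by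
  unfold tau
  rw [Nat.divisors_mul]
  exact_mod_cast Finset.card_mul_le

/-- regroup by divisors: a sum over `s ≤ S` and `d ∣ s` is bounded by the sum over `d, m` with
`d m ≤ S` -/
theorem regroup (S : ℕ) (F : ℕ → ℕ → ℝ) :
    ∑ s ∈ Icc 1 S, ∑ d ∈ s.divisors, F d (s / d) = ∑ d ∈ Icc 1 S, ∑ m ∈ Icc 1 (S / d), F d m := by
  rw [Finset.sum_sigma', Finset.sum_sigma']
  refine Finset.sum_bij' (fun x _ => ⟨x.2, x.1 / x.2⟩) (fun x _ => ⟨x.1 * x.2, x.1⟩) ?_ ?_ ?_ ?_ ?_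
  · rintro ⟨s, d⟩ h
    simp only [mem_sigma, mem_Icc, Nat.mem_divisors] at h ⊢
    obtain ⟨⟨h1, h2⟩, h3, h4⟩ := h
    have hd : 0 < d := Nat.pos_of_dvd_of_pos h3 h1
    have hle : d ≤ s := Nat.le_of_dvd h1 h3
    exact ⟨⟨hd, hle.trans h2⟩, Nat.div_pos hle hd, Nat.div_le_div_right h2⟩
  · rintro ⟨d, m⟩ h
    simp only [mem_sigma, mem_Icc, Nat.mem_divisors] at h ⊢
    obtain ⟨⟨h1, h2⟩, h3, h4⟩ := h
    have : d * m ≤ S := by
      calc d * m ≤ d * (S / d) := Nat.mul_le_mul_left _ h4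
        _ ≤ S := Nat.mul_div_le S d
    have h5 : 0 < d * m := Nat.mul_pos h1 h3
    exact ⟨⟨h5, this⟩, ⟨m, rfl⟩, h5.ne'⟩
  · rintro ⟨s, d⟩ h
    simp only [mem_sigma, mem_Icc, Nat.mem_divisors] at h ⊢
    obtain ⟨⟨h1, h2⟩, h3, h4⟩ := h
    simp only [Nat.mul_div_cancel' h3]
  · rintro ⟨d, m⟩ h
    simp only [mem_sigma, mem_Icc] at h ⊢
    simp only [Nat.mul_div_cancel_left m h.1.1]
  · rintro ⟨s, d⟩ h
    rfl

theorem tau_sum (S : ℕ) : ∑ s ∈ Icc 1 S, tau s ≤ S * lg S := by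
  have h := regroup S (fun _ _ => (1 : ℝ))
  have h1 : ∑ s ∈ Icc 1 S, tau s = ∑ s ∈ Icc 1 S, ∑ d ∈ s.divisors, (1 : ℝ) := by
    refine Finset.sum_congr rfl fun s _ => ?_
    simp [tau]
  rw [h1, h]
  calc ∑ d ∈ Icc 1 S, ∑ m ∈ Icc 1 (S / d), (1 : ℝ) ≤ ∑ d ∈ Icc 1 S, (S : ℝ) * (1 / (d : ℝ)) := by
        refine Finset.sum_le_sum fun d _ => ?_
        simp only [sum_const, Nat.card_Icc, Nat.add_sub_cancel, nsmul_eq_mul, mul_one]
        rw [mul_one_div]
        exact Nat.cast_div_le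
    _ = S * ∑ d ∈ Icc 1 S, 1 / (d : ℝ) := by rw [Finset.mul_sum]
    _ ≤ S * lg S := mul_le_mul_of_nonneg_left (harm S) (by positivity)

/-- `∑ τ(d) / d ≤ (lg S)²` -/
theorem tau_div (S : ℕ) : ∑ d ∈ Icc 1 S, tau d / d ≤ lg S ^ 2 := by
  have h := regroup S (fun d m => 1 / (d : ℝ) * (1 / (m : ℝ)))
  have h1 : ∑ s ∈ Icc 1 S, tau s / s =
      ∑ s ∈ Icc 1 S, ∑ d ∈ s.divisors, 1 / (d : ℝ) * (1 / ((s / d : ℕ) : ℝ)) := by
    refine Finset.sum_congr rfl fun s _ => ?_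
    have h2 : ∀ d ∈ s.divisors, 1 / (d : ℝ) * (1 / ((s / d : ℕ) : ℝ)) = 1 / (s : ℝ) := by
      intro d hd
      rw [Nat.mem_divisors] at hd
      have hs0 : (0 : ℝ) < s := by exact_mod_cast Nat.pos_of_ne_zero hd.2
      have hd0 : (0 : ℝ) < d := by exact_mod_cast Nat.pos_of_dvd_of_pos hd.1 (Nat.pos_of_ne_zero hd.2)
      rw [Nat.cast_div hd.1 hd0.ne']
      field_simp
    rw [Finset.sum_congr rfl h2]
    simp [tau, div_eq_mul_inv]
  rw [h1, h]
  have hS0 : 0 ≤ ∑ n ∈ Icc 1 S, 1 / (n : ℝ) := Finset.sum_nonneg fun n _ => by positivity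
  calc ∑ d ∈ Icc 1 S, ∑ m ∈ Icc 1 (S / d), 1 / (d : ℝ) * (1 / (m : ℝ))
      ≤ ∑ d ∈ Icc 1 S, ∑ m ∈ Icc 1 S, 1 / (d : ℝ) * (1 / (m : ℝ)) := by
        refine Finset.sum_le_sum fun d _ => ?_
        refine Finset.sum_le_sum_of_subset_of_nonneg ?_ fun _ _ _ => by positivity
        exact Finset.Icc_subset_Icc_right (Nat.div_le_self _ _)
    _ = (∑ n ∈ Icc 1 S, 1 / (n : ℝ)) ^ 2 := by rw [sq, Finset.sum_mul_sum]
    _ ≤ lg S ^ 2 := pow_le_pow_left₀ hS0 (harm S) 2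

theorem tau_sq_sum (S : ℕ) (hS : 1 ≤ S) : ∑ s ∈ Icc 1 S, tau s ^ 2 ≤ S * lg S ^ 3 := by
  have h := regroup S (fun d m => tau (d * m))
  have h1 : ∑ s ∈ Icc 1 S, tau s ^ 2 = ∑ s ∈ Icc 1 S, ∑ d ∈ s.divisors, tau (d * (s / d)) := by
    refine Finset.sum_congr rfl fun s _ => ?_
    have h2 : ∀ d ∈ s.divisors, tau (d * (s / d)) = tau s := by
      intro d hd
      rw [Nat.mul_div_cancel' (Nat.mem_divisors.1 hd).1]
    rw [Finset.sum_congr rfl h2]
    simp only [sum_const, nsmul_eq_mul]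
    rw [sq]
    rfl
  rw [h1, h]
  have hl := lg_one hS
  calc ∑ d ∈ Icc 1 S, ∑ m ∈ Icc 1 (S / d), tau (d * m)
      ≤ ∑ d ∈ Icc 1 S, tau d * ∑ m ∈ Icc 1 (S / d), tau m := by
        refine Finset.sum_le_sum fun d _ => ?_
        rw [Finset.mul_sum]
        exact Finset.sum_le_sum fun m _ => tau_mul d m
    _ ≤ ∑ d ∈ Icc 1 S, tau d * ((S : ℝ) / d * lg S) := by
        refine Finset.sum_le_sum fun d hd => ?_
        rw [mem_Icc] at hd
        refine mul_le_mul_of_nonneg_left ?_ (tau_nonneg d)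
        refine (tau_sum (S / d)).trans ?_
        have h3 : 1 ≤ S / d := Nat.div_pos hd.2 hd.1
        have h4 := lg_mono h3 (Nat.div_le_self S d)
        have h5 : ((S / d : ℕ) : ℝ) ≤ (S : ℝ) / d := Nat.cast_div_le
        have h6 := lg_one h3
        exact mul_le_mul h5 h4 (by linarith) (by positivity)
    _ = S * lg S * ∑ d ∈ Icc 1 S, tau d / d := by
        rw [Finset.mul_sum]
        refine Finset.sum_congr rfl fun d _ => ?_
        ring
    _ ≤ S * lg S * lg S ^ 2 := mul_le_mul_of_nonneg_left (tau_div S) (by positivity)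
    _ = S * lg S ^ 3 := by ring

/-- `τ(v²) ≤ ∑_{g | v} τ(g)` -/
theorem tau_sq_le (v : ℕ) (hv : 1 ≤ v) : tau (v ^ 2) ≤ ∑ g ∈ v.divisors, tau g := by
  have h : (v ^ 2).divisors.card ≤ (v.divisors.sigma fun g => g.divisors).card := by
    refine Finset.card_le_card_of_injOn (fun e => ⟨Nat.gcd e v, e / Nat.gcd e v⟩) ?_ ?_
    · intro e he
      have he' : e ∣ v ^ 2 := (Nat.mem_divisors.1 he).1
      have hg : 0 < Nat.gcd e v := Nat.gcd_pos_of_pos_right _ hv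
      have hgv : Nat.gcd e v ∣ v := Nat.gcd_dvd_right e v
      have hge : Nat.gcd e v ∣ e := Nat.gcd_dvd_left e v
      simp only [coe_sigma, Set.mem_sigma_iff, mem_coe, Nat.mem_divisors]
      refine ⟨⟨hgv, by omega⟩, ?_, hg.ne'⟩
      have hcop : Nat.Coprime (e / Nat.gcd e v) (v / Nat.gcd e v) := Nat.coprime_div_gcd_div_gcd hg
      have h1 : e / Nat.gcd e v ∣ v / Nat.gcd e v * v := by
        have h2 : Nat.gcd e v * (e / Nat.gcd e v) ∣ Nat.gcd e v * (v / Nat.gcd e v * v) := by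
          rw [Nat.mul_div_cancel' hge, ← mul_assoc, Nat.mul_div_cancel' hgv, ← sq]
          exact he'
        exact Nat.dvd_of_mul_dvd_mul_left hg h2
      have h3 : e / Nat.gcd e v ∣ v := hcop.dvd_of_dvd_mul_left h1
      have h4 : e / Nat.gcd e v ∣ v / Nat.gcd e v * Nat.gcd e v := by
        rw [Nat.div_mul_cancel hgv]; exact h3
      exact hcop.dvd_of_dvd_mul_left h4
    · intro e he e' he' hee
      simp only [Sigma.mk.injEq, heq_eq_eq] at hee
      have h1 := Nat.mul_div_cancel' (Nat.gcd_dvd_left e v)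
      have h2 := Nat.mul_div_cancel' (Nat.gcd_dvd_left e' v)
      rw [← h1, ← h2, hee.2, hee.1]
  unfold tau
  rw [Finset.card_sigma] at h
  exact_mod_cast h

theorem tau_sq_div (V : ℕ) (hV : 1 ≤ V) : ∑ v ∈ Icc 1 V, tau (v ^ 2) / v ≤ lg V ^ 3 := by
  have h := regroup V (fun g m => tau g / g * (1 / (m : ℝ)))
  have h1 : ∑ v ∈ Icc 1 V, tau (v ^ 2) / v ≤
      ∑ s ∈ Icc 1 V, ∑ d ∈ s.divisors, tau d / d * (1 / ((s / d : ℕ) : ℝ)) := by
    refine Finset.sum_le_sum fun s hs => ?_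
    rw [mem_Icc] at hs
    have hs0 : (0 : ℝ) < s := by exact_mod_cast hs.1
    have h2 : ∀ d ∈ s.divisors, tau d / d * (1 / ((s / d : ℕ) : ℝ)) = tau d / s := by
      intro d hd
      rw [Nat.mem_divisors] at hd
      have hd0 : (0 : ℝ) < d := by exact_mod_cast Nat.pos_of_dvd_of_pos hd.1 hs.1
      rw [Nat.cast_div hd.1 hd0.ne']
      field_simp
    rw [Finset.sum_congr rfl h2, ← Finset.sum_div]
    exact div_le_div_of_nonneg_right (tau_sq_le s hs.1) hs0.le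
  have hS0 : 0 ≤ ∑ n ∈ Icc 1 V, 1 / (n : ℝ) := Finset.sum_nonneg fun n _ => by positivity
  have hl := lg_one hV
  refine h1.trans ?_
  rw [h]
  calc ∑ g ∈ Icc 1 V, ∑ m ∈ Icc 1 (V / g), tau g / g * (1 / (m : ℝ))
      ≤ ∑ g ∈ Icc 1 V, ∑ m ∈ Icc 1 V, tau g / g * (1 / (m : ℝ)) := by
        refine Finset.sum_le_sum fun d _ => ?_
        refine Finset.sum_le_sum_of_subset_of_nonneg ?_ fun _ _ _ => ?_
        · exact Finset.Icc_subset_Icc_right (Nat.div_le_self _ _)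
        · have := tau_nonneg d
          positivity
    _ = (∑ g ∈ Icc 1 V, tau g / g) * ∑ n ∈ Icc 1 V, 1 / (n : ℝ) := by rw [Finset.sum_mul_sum]
    _ ≤ lg V ^ 2 * lg V := mul_le_mul (tau_div V) (harm V) hS0 (by positivity)
    _ = lg V ^ 3 := by ring

/-- `∑_{X < v ≤ V} 1/v² ≤ 1/X` -/
theorem tail_sq (X V : ℕ) (hX : 1 ≤ X) : ∑ v ∈ Ioc X V, 1 / (v : ℝ) ^ 2 ≤ 1 / (X : ℝ) := by
  have hX0 : (0 : ℝ) < X := by exact_mod_cast hX
  rcases le_total V X with h | h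
  · rw [Finset.Ioc_eq_empty (by omega)]
    simp
  · have h1 := sum_Ioc_inv_sq_le_sub (α := ℝ) (by omega : X ≠ 0) h
    have h2 : (0 : ℝ) ≤ (V : ℝ)⁻¹ := by positivity
    simp only [one_div]
    linarith

theorem exp_le (t : ℝ) (ht : 0 < t) : Real.exp (-t) ≤ 2 / t ^ 2 := by
  have h := Real.quadratic_le_exp_of_nonneg ht.le
  rw [Real.exp_neg, inv_eq_one_div, div_le_div_iff₀ (Real.exp_pos t) (by positivity)]
  nlinarith

theorem tau_le (n : ℕ) : tau n ≤ n := by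
  unfold tau
  exact_mod_cast Nat.card_divisors_le_self n

theorem t_TAU : S_TAU := by
  refine ⟨fun m n _ _ => tau_mul m n, fun S hS => ⟨tau_sum S, tau_sq_sum S hS⟩, tau_sq_div,
    ⟨513, by norm_num, ?_⟩, ?_⟩
  · intro V X hX
    have hX0 : (0 : ℝ) < X := by exact_mod_cast hX
    have hl := lg_one hX
    have hl3 : 1 ≤ lg X ^ 3 := one_le_pow₀ hl
    set a : ℕ → ℝ := fun v => tau (v ^ 2) / v * Real.exp (-((v : ℝ) ^ 2 / (16 * X))) with ha
    have ha0 : ∀ v, 0 ≤ a v := fun v => by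
      have := tau_nonneg (v ^ 2)
      simp only [ha]
      positivity
    have hsub : Icc 1 V ⊆ Icc 1 X ∪ Ioc X V := by
      intro v hv
      simp only [mem_union, mem_Icc, mem_Ioc] at hv ⊢
      omega
    have h1 : ∑ v ∈ Icc 1 V, a v ≤ ∑ v ∈ Icc 1 X, a v + ∑ v ∈ Ioc X V, a v := by
      refine (Finset.sum_le_sum_of_subset_of_nonneg hsub fun _ _ _ => ha0 _).trans ?_
      rw [Finset.sum_union]
      rw [Finset.disjoint_left]
      intro v hv hv'
      simp only [mem_Icc, mem_Ioc] at hv hv'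
      omega
    have h2 : ∑ v ∈ Icc 1 X, a v ≤ lg X ^ 3 := by
      refine (Finset.sum_le_sum fun v _ => ?_).trans (tau_sq_div X hX)
      have h3 : 0 ≤ tau (v ^ 2) / (v : ℝ) := div_nonneg (tau_nonneg _) (by positivity)
      have h4 : Real.exp (-((v : ℝ) ^ 2 / (16 * X))) ≤ 1 := by
        rw [Real.exp_le_one_iff]
        have : 0 ≤ (v : ℝ) ^ 2 / (16 * X) := by positivity
        linarith
      simpa using mul_le_mul_of_nonneg_left h4 h3
    have h3 : ∑ v ∈ Ioc X V, a v ≤ 512 := by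
      calc ∑ v ∈ Ioc X V, a v ≤ ∑ v ∈ Ioc X V, 512 * (X : ℝ) * (1 / (v : ℝ) ^ 2) := by
            refine Finset.sum_le_sum fun v hv => ?_
            rw [mem_Ioc] at hv
            have hv0 : (0 : ℝ) < v := by exact_mod_cast (by omega : 0 < v)
            have hvX : (X : ℝ) ≤ v := by exact_mod_cast hv.1.le
            have h5 := exp_le ((v : ℝ) ^ 2 / (16 * X)) (by positivity)
            have h6 : tau (v ^ 2) ≤ (v : ℝ) ^ 2 := by
              have := tau_le (v ^ 2)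
              push_cast at this
              exact this
            have h7 : a v ≤ (v : ℝ) ^ 2 / v * (2 / ((v : ℝ) ^ 2 / (16 * X)) ^ 2) := by
              refine mul_le_mul ?_ h5 (Real.exp_pos _).le (by positivity)
              exact div_le_div_of_nonneg_right h6 hv0.le
            refine h7.trans ?_
            have h8 : (v : ℝ) ^ 2 / v * (2 / ((v : ℝ) ^ 2 / (16 * X)) ^ 2) =
                512 * (X : ℝ) * (1 / (v : ℝ) ^ 2) * ((X : ℝ) / v) := by
              field_simp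
              ring
            rw [h8]
            have h9 : (X : ℝ) / v ≤ 1 := (div_le_one hv0).2 hvX
            have h10 : 0 ≤ 512 * (X : ℝ) * (1 / (v : ℝ) ^ 2) := by positivity
            simpa using mul_le_mul_of_nonneg_left h9 h10
        _ = 512 * (X : ℝ) * ∑ v ∈ Ioc X V, 1 / (v : ℝ) ^ 2 := by rw [Finset.mul_sum]
        _ ≤ 512 * (X : ℝ) * (1 / X) := mul_le_mul_of_nonneg_left (tail_sq X V hX) (by positivity)
        _ = 512 := by field_simp
    linarith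
  · obtain ⟨C, hC0, hC⟩ := Pool.Agent.Helper112.divisor_bound (1 / 8) (by norm_num)
    refine ⟨C, hC0, fun g hg => ?_⟩
    have h := hC (g ^ 2) (Nat.one_le_pow _ _ hg)
    unfold tau
    refine h.trans (le_of_eq ?_)
    congr 1
    push_cast
    rw [← Real.rpow_natCast, ← Real.rpow_mul (by positivity)]
    norm_num

end

end Pool.Agent.H10.BR
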